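import Pool.Agent.U485.SM.Stm

/-! # Project HT (helper485), package LIM (helper445): convergence to the singular series -/

set_option autoImplicit false

open Finset Filter Topology

namespace Pool.Agent.U445.HT.LIM

open Pool.Agent.U485.SM

theorem Pr_succ (m : ℕ) :
    Pr (m + 1) = if (m + 1).Prime then insert (m + 1) (Pr m) else Pr m := by
  ext p
  unfold Pr
  split_ifs with h
  · rw [mem_insert, mem_filter, mem_filter, mem_Icc, mem_Icc]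
    constructor
    · rintro ⟨⟨h1, h2⟩, h3⟩
      by_cases hp : p = m + 1
      · exact Or.inl hp
      · exact Or.inr ⟨⟨h1, by omega⟩, h3⟩
    · rintro (rfl | ⟨⟨h1, h2⟩, h3⟩)
      · exact ⟨⟨by omega, le_rfl⟩, h⟩
      · exact ⟨⟨h1, by omega⟩, h3⟩
  · rw [mem_filter, mem_filter, mem_Icc, mem_Icc]
    constructor
    · rintro ⟨⟨h1, h2⟩, h3⟩
      refine ⟨⟨h1, ?_⟩, h3⟩
      have : p ≠ m + 1 := by
        rintro rfl
        exact h h3
      omega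
    · rintro ⟨⟨h1, h2⟩, h3⟩
      exact ⟨⟨h1, by omega⟩, h3⟩

theorem gb (k K p : ℕ) (hk : k ≤ K) (hp : 2 ≤ p) (hKp : K ≤ p) :
    1 - (K : ℝ) ^ 2 / (p : ℝ) ^ 2 ≤ (1 - (k : ℝ) / p) * ((1 - 1 / (p : ℝ))⁻¹) ^ k ∧
      0 ≤ (1 - (k : ℝ) / p) * ((1 - 1 / (p : ℝ))⁻¹) ^ k ∧
      (1 - (k : ℝ) / p) * ((1 - 1 / (p : ℝ))⁻¹) ^ k ≤ 1 := by
  have hp0 : (0 : ℝ) < p := by
    have : 0 < p := by omega
    exact_mod_cast this
  have hp2 : (2 : ℝ) ≤ p := by exact_mod_cast hp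
  obtain ⟨q, hq⟩ : ∃ q : ℝ, q = 1 / (p : ℝ) := ⟨_, rfl⟩
  have hq0 : 0 < q := by rw [hq]; positivity
  have hq1 : q ≤ 1 / 2 := by
    rw [hq]
    exact one_div_le_one_div_of_le (by norm_num) hp2
  have e1 : (k : ℝ) / p = k * q := by rw [hq]; ring
  have e2 : (K : ℝ) ^ 2 / (p : ℝ) ^ 2 = K ^ 2 * q ^ 2 := by rw [hq]; ring
  rw [e1, e2, ← hq, inv_pow]
  have ha : 0 < (1 - q) ^ k := pow_pos (by linarith) k
  have hkq : (k : ℝ) * q ≤ 1 := by
    rw [← e1, div_le_one hp0]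
    exact_mod_cast hk.trans hKp
  have hb1 : 1 - (k : ℝ) * q ≤ (1 - q) ^ k := by
    have := one_add_mul_le_pow (a := -q) (by linarith) k
    calc 1 - (k : ℝ) * q = 1 + (k : ℝ) * -q := by ring
      _ ≤ (1 + -q) ^ k := this
      _ = (1 - q) ^ k := by ring
  have hb2 : (1 - q) ^ k * (1 + (k : ℝ) * q) ≤ 1 := by
    have h1 := one_add_mul_le_pow (a := q) (by linarith) k
    calc (1 - q) ^ k * (1 + (k : ℝ) * q) ≤ (1 - q) ^ k * (1 + q) ^ k :=
          mul_le_mul_of_nonneg_left h1 ha.le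
      _ = (1 - q ^ 2) ^ k := by
          rw [← mul_pow]
          congr 1
          ring
      _ ≤ 1 := pow_le_one₀ (by nlinarith) (by nlinarith)
  have hk0 : (0 : ℝ) ≤ k := Nat.cast_nonneg k
  have hkK : (k : ℝ) ^ 2 ≤ (K : ℝ) ^ 2 := by
    have : (k : ℝ) ≤ K := by exact_mod_cast hk
    nlinarith
  refine ⟨?_, mul_nonneg (by linarith) (inv_nonneg.mpr ha.le), ?_⟩
  · have h1 : 1 - (k : ℝ) ^ 2 * q ^ 2 ≤ (1 - (k : ℝ) * q) * ((1 - q) ^ k)⁻¹ := by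
      rw [← div_eq_mul_inv, le_div_iff₀ ha]
      calc (1 - (k : ℝ) ^ 2 * q ^ 2) * (1 - q) ^ k
          = (1 - (k : ℝ) * q) * ((1 - q) ^ k * (1 + (k : ℝ) * q)) := by ring
        _ ≤ (1 - (k : ℝ) * q) * 1 := mul_le_mul_of_nonneg_left hb2 (by linarith)
        _ = 1 - (k : ℝ) * q := mul_one _
    have h2 : (k : ℝ) ^ 2 * q ^ 2 ≤ (K : ℝ) ^ 2 * q ^ 2 :=
      mul_le_mul_of_nonneg_right hkK (sq_nonneg q)
    linarith
  · rw [← div_eq_mul_inv, div_le_one ha]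
    exact hb1

theorem prodR (g : ℕ → ℝ) (K t₀ : ℕ) (ht : 1 ≤ t₀)
    (hg : ∀ p : ℕ, p.Prime → t₀ < p → 1 - (K : ℝ) ^ 2 / (p : ℝ) ^ 2 ≤ g p ∧ 0 ≤ g p ∧ g p ≤ 1)
    (z : ℕ) (hz : t₀ ≤ z) :
    ∃ R : ℝ, ∏ p ∈ Pr z, g p = (∏ p ∈ Pr t₀, g p) * R ∧
      1 - (K : ℝ) ^ 2 * (1 / (t₀ : ℝ) - 1 / (z : ℝ)) ≤ R ∧ 0 ≤ R ∧ R ≤ 1 := by
  induction z, hz using Nat.le_induction with
  | base => exact ⟨1, by rw [mul_one], by simp, zero_le_one, le_rfl⟩
  | succ m hm ih =>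
    obtain ⟨R, h1, h2, h3, h4⟩ := ih
    have hm0 : (0 : ℝ) < m := by
      have : 0 < m := by omega
      exact_mod_cast this
    have hd : 1 / ((m + 1 : ℕ) : ℝ) ≤ 1 / (m : ℝ) :=
      one_div_le_one_div_of_le hm0 (by push_cast; linarith)
    have hd2 : 1 / ((m + 1 : ℕ) : ℝ) ^ 2 ≤ 1 / (m : ℝ) - 1 / ((m + 1 : ℕ) : ℝ) := by
      push_cast
      rw [div_sub_div _ _ hm0.ne' (by positivity), div_le_div_iff₀ (by positivity) (by positivity)]
      nlinarith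
    rw [Pr_succ]
    split_ifs with hp
    · have hnot : m + 1 ∉ Pr m := by
        unfold Pr
        rw [mem_filter, mem_Icc]
        omega
      obtain ⟨g1, g2, g3⟩ := hg (m + 1) hp (by omega)
      refine ⟨R * g (m + 1), ?_, ?_, mul_nonneg h3 g2, mul_le_one₀ h4 g2 g3⟩
      · rw [prod_insert hnot, h1]
        ring
      · have h5 : R - (K : ℝ) ^ 2 / ((m + 1 : ℕ) : ℝ) ^ 2 ≤ R * g (m + 1) := by
          have h6 : R * (1 - (K : ℝ) ^ 2 / ((m + 1 : ℕ) : ℝ) ^ 2) ≤ R * g (m + 1) :=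
            mul_le_mul_of_nonneg_left g1 h3
          have h7 : R * ((K : ℝ) ^ 2 / ((m + 1 : ℕ) : ℝ) ^ 2) ≤
              1 * ((K : ℝ) ^ 2 / ((m + 1 : ℕ) : ℝ) ^ 2) :=
            mul_le_mul_of_nonneg_right h4 (by positivity)
          linarith
        have h8 : (K : ℝ) ^ 2 / ((m + 1 : ℕ) : ℝ) ^ 2 ≤
            (K : ℝ) ^ 2 * (1 / (m : ℝ) - 1 / ((m + 1 : ℕ) : ℝ)) := by
          calc (K : ℝ) ^ 2 / ((m + 1 : ℕ) : ℝ) ^ 2 = (K : ℝ) ^ 2 * (1 / ((m + 1 : ℕ) : ℝ) ^ 2) := by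
                ring
            _ ≤ _ := mul_le_mul_of_nonneg_left hd2 (by positivity)
        have e : (K : ℝ) ^ 2 * (1 / (t₀ : ℝ) - 1 / ((m + 1 : ℕ) : ℝ)) =
            (K : ℝ) ^ 2 * (1 / (t₀ : ℝ) - 1 / (m : ℝ)) +
              (K : ℝ) ^ 2 * (1 / (m : ℝ) - 1 / ((m + 1 : ℕ) : ℝ)) := by ring
        rw [e]
        linarith
    · refine ⟨R, h1, ?_, h3, h4⟩
      have : (K : ℝ) ^ 2 * (1 / (t₀ : ℝ) - 1 / (m : ℝ)) ≤
          (K : ℝ) ^ 2 * (1 / (t₀ : ℝ) - 1 / ((m + 1 : ℕ) : ℝ)) :=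
        mul_le_mul_of_nonneg_left (by linarith) (by positivity)
      linarith

open Classical in
theorem prodW (F : Finset (ℤ × ℤ)) (t : ℤ × ℤ → ℕ) :
    ∏ f ∈ F, W (t f) =
      ∏ p ∈ Pr (F.sup t), ((1 - 1 / (p : ℝ))⁻¹) ^ (F.filter (fun f => p ≤ t f)).card := by
  have h1 : ∀ f ∈ F, W (t f) = ∏ p ∈ Pr (F.sup t), if p ≤ t f then (1 - 1 / (p : ℝ))⁻¹ else 1 := by
    intro f hf
    rw [← prod_filter]
    unfold W
    refine prod_congr ?_ fun _ _ => rfl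
    ext p
    unfold Pr
    rw [mem_filter, mem_filter, mem_filter, mem_Icc, mem_Icc]
    have h2 : t f ≤ F.sup t := le_sup hf
    constructor
    · rintro ⟨⟨h3, h4⟩, h5⟩
      exact ⟨⟨⟨h3, h4.trans h2⟩, h5⟩, h4⟩
    · rintro ⟨⟨⟨h3, h4⟩, h5⟩, h6⟩
      exact ⟨⟨h3, h6⟩, h5⟩
  rw [Finset.prod_congr rfl h1, Finset.prod_comm]
  refine prod_congr rfl fun p _ => ?_
  rw [← prod_filter, prod_const]

open Classical in
theorem Om_card (F : Finset (ℤ × ℤ)) (t : ℤ × ℤ → ℕ) (p : ℕ) (hp : p.Prime)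
    (h1 : ∀ f ∈ F, f.1 ≠ 0 ∧ f.1.natAbs < p)
    (h2 : ∀ f ∈ F, ∀ g ∈ F, f ≠ g →
      f.1 * g.2 - g.1 * f.2 ≠ 0 ∧ (f.1 * g.2 - g.1 * f.2).natAbs < p) :
    (Om F t p).card = (F.filter (fun f => p ≤ t f)).card := by
  have hpp : Prime (p : ℤ) := Nat.prime_iff_prime_int.mp hp
  have hnd : ∀ a : ℤ, a ≠ 0 → a.natAbs < p → ¬ (p : ℤ) ∣ a := by
    intro a ha hap hd
    have h3 : p ∣ a.natAbs := Int.natCast_dvd.mp hd
    have h4 := Nat.le_of_dvd (Int.natAbs_pos.mpr ha) h3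
    omega
  have hex : ∀ f ∈ F, ∃ r : ℕ, r < p ∧ (p : ℤ) ∣ Pool.Agent.U485.SM.val f r := by
    intro f hf
    have hcop : IsCoprime (p : ℤ) f.1 :=
      (Prime.coprime_iff_not_dvd hpp).mpr (hnd _ (h1 f hf).1 (h1 f hf).2)
    obtain ⟨u, v, huv⟩ := hcop
    have hp0 : (0 : ℤ) < p := by exact_mod_cast hp.pos
    have h3 := Int.emod_nonneg (-v * f.2) hp0.ne'
    have h4 := Int.emod_lt_of_pos (-v * f.2) hp0
    refine ⟨((-v * f.2) % p).toNat, by omega, ?_⟩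
    unfold Pool.Agent.U485.SM.val
    rw [Int.toNat_of_nonneg h3]
    have h5 : (-v * f.2) % p = -v * f.2 - p * ((-v * f.2) / p) := by
      have := Int.emod_add_mul_ediv (-v * f.2) p
      linarith
    rw [h5]
    refine ⟨f.2 * u - f.1 * ((-v * f.2) / p), ?_⟩
    linear_combination (-f.2) * huv
  choose! rt hrt1 hrt2 using hex
  have huniq : ∀ f ∈ F, ∀ r s : ℕ, r < p → s < p → (p : ℤ) ∣ Pool.Agent.U485.SM.val f r → (p : ℤ) ∣ Pool.Agent.U485.SM.val f s → r = s := by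
    intro f hf r s hr hs h3 h4
    unfold Pool.Agent.U485.SM.val at h3 h4
    have h5 : (p : ℤ) ∣ f.1 * ((r : ℤ) - s) := by
      have := dvd_sub h3 h4
      have e : f.1 * (r : ℤ) + f.2 - (f.1 * (s : ℤ) + f.2) = f.1 * ((r : ℤ) - s) := by ring
      rwa [e] at this
    rcases hpp.dvd_or_dvd h5 with h6 | h6
    · exact absurd h6 (hnd _ (h1 f hf).1 (h1 f hf).2)
    · by_contra hne
      refine hnd ((r : ℤ) - s) ?_ ?_ h6
      · intro h7
        apply hne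
        have : (r : ℤ) = s := by linarith
        exact_mod_cast this
      · omega
  have himg : Om F t p = (F.filter (fun f => p ≤ t f)).image rt := by
    ext r
    unfold Om
    rw [mem_filter, mem_range, mem_image]
    constructor
    · rintro ⟨hr, f, hf, hft, hd⟩
      exact ⟨f, mem_filter.mpr ⟨hf, hft⟩, huniq f hf _ _ (hrt1 f hf) hr (hrt2 f hf) hd⟩
    · rintro ⟨f, hf, rfl⟩
      rw [mem_filter] at hf
      exact ⟨hrt1 f hf.1, f, hf.1, hf.2, hrt2 f hf.1⟩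
  rw [himg, card_image_of_injOn]
  intro f hf g hg hfg
  rw [mem_coe, mem_filter] at hf hg
  by_contra hne
  obtain ⟨h3, h4⟩ := h2 f hf.1 g hg.1 hne
  refine hnd _ h3 h4 ?_
  have a1 := hrt2 f hf.1
  have a2 := hrt2 g hg.1
  have hfg' : rt f = rt g := hfg
  rw [← hfg'] at a2
  unfold Pool.Agent.U485.SM.val at a1 a2
  have := dvd_sub (Dvd.dvd.mul_left a2 f.1) (Dvd.dvd.mul_left a1 g.1)
  have e : f.1 * (g.1 * (rt f : ℤ) + g.2) - g.1 * (f.1 * (rt f : ℤ) + f.2) =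
      f.1 * g.2 - g.1 * f.2 := by ring
  rwa [e] at this

open Classical in
theorem t_LIM : S_LIM := by
  intro F hcop hne hpair c hc δ hδ
  rcases F.eq_empty_or_nonempty with rfl | hF
  · -- empty system
    have h1 : (fun y : ℕ => ∏ p ∈ Pr y, ((1 - (nu ∅ p : ℝ) / p) *
        (1 - 1 / (p : ℝ))⁻¹ ^ (∅ : Finset (ℤ × ℤ)).card)) = fun _ => (1 : ℝ) := by
      funext y
      refine prod_eq_one fun p _ => ?_
      have : nu ∅ p = 0 := by
        unfold nu Om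
        simp
      rw [this]
      simp
    rw [h1] at hc
    have h2 : c = 1 := tendsto_nhds_unique hc tendsto_const_nhds
    refine ⟨0, fun t _ => ?_⟩
    have h3 : Sg ∅ t = 1 := by
      unfold Sg Pr
      simp
    rw [h3, h2, sub_self, abs_zero]
    exact hδ.le
  · set K := F.card with hK
    set a : ℕ → ℝ := fun y => ∏ p ∈ Pr y, ((1 - (nu F p : ℝ) / p) * (1 - 1 / (p : ℝ))⁻¹ ^ K) with ha
    obtain ⟨P0, hP0⟩ : ∃ P0 : ℕ, P0 = ∑ f ∈ F, f.1.natAbs +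
        ∑ f ∈ F, ∑ g ∈ F, (f.1 * g.2 - g.1 * f.2).natAbs := ⟨_, rfl⟩
    have hb1 : ∀ f ∈ F, f.1.natAbs ≤ P0 := by
      intro f hf
      have := single_le_sum (f := fun f : ℤ × ℤ => f.1.natAbs) (fun _ _ => Nat.zero_le _) hf
      rw [hP0]
      exact this.trans (Nat.le_add_right _ _)
    have hb2 : ∀ f ∈ F, ∀ g ∈ F, (f.1 * g.2 - g.1 * f.2).natAbs ≤ P0 := by
      intro f hf g hg
      have h1 := single_le_sum (f := fun g : ℤ × ℤ => (f.1 * g.2 - g.1 * f.2).natAbs)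
        (fun _ _ => Nat.zero_le _) hg
      have h2 := single_le_sum (f := fun f : ℤ × ℤ => ∑ g ∈ F, (f.1 * g.2 - g.1 * f.2).natAbs)
        (fun _ _ => Nat.zero_le _) hf
      rw [hP0]
      exact (h1.trans h2).trans (Nat.le_add_left _ _)
    -- the choice of `t₀`
    have e1 : ∀ᶠ y : ℕ in atTop, |a y - c| ≤ δ / 2 := by
      have := (Metric.tendsto_nhds.mp hc) (δ / 2) (by linarith)
      filter_upwards [this] with y hy
      rw [Real.dist_eq] at hy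
      exact hy.le
    have e2 : ∀ᶠ y : ℕ in atTop, (|c| + δ) * (K : ℝ) ^ 2 / (y : ℝ) ≤ δ / 2 := by
      have h1 : Tendsto (fun y : ℕ => (|c| + δ) * (K : ℝ) ^ 2 / (y : ℝ)) atTop (𝓝 0) :=
        tendsto_const_nhds.div_atTop tendsto_natCast_atTop_atTop
      filter_upwards [h1.eventually (gt_mem_nhds (show (0 : ℝ) < δ / 2 by linarith))] with y hy
      exact hy.le
    obtain ⟨t₀, ⟨h1, h2⟩, h3⟩ := ((e1.and e2).and (eventually_ge_atTop (P0 + K + 2))).exists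
    refine ⟨t₀, fun t ht => ?_⟩
    have hz : t₀ ≤ F.sup t := by
      obtain ⟨f, hf⟩ := hF
      exact (ht f hf).trans (le_sup hf)
    have hSg : Sg F t = ∏ p ∈ Pr (F.sup t), ((1 - ((Om F t p).card : ℝ) / p) *
        ((1 - 1 / (p : ℝ))⁻¹) ^ (F.filter (fun f => p ≤ t f)).card) := by
      unfold Sg
      rw [prodW, ← prod_mul_distrib]
    obtain ⟨R, r1, r2, r3, r4⟩ := prodR (fun p => (1 - ((Om F t p).card : ℝ) / p) *
        ((1 - 1 / (p : ℝ))⁻¹) ^ (F.filter (fun f => p ≤ t f)).card) K t₀ (by omega) (by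
      intro p hp htp
      have hc1 := Om_card F t p hp (fun f hf => ⟨hne f hf, by have := hb1 f hf; omega⟩)
        (fun f hf g hg hfg => ⟨fun h => hpair f hf g hg hfg (by linarith),
          by have := hb2 f hf g hg; omega⟩)
      show 1 - (K : ℝ) ^ 2 / (p : ℝ) ^ 2 ≤ (1 - ((Om F t p).card : ℝ) / p) *
        ((1 - 1 / (p : ℝ))⁻¹) ^ (F.filter (fun f => p ≤ t f)).card ∧ _ ∧ _
      rw [hc1]
      exact gb _ K p (card_filter_le _ _) hp.two_le (by omega)) (F.sup t) hz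
    have hat : ∏ p ∈ Pr t₀, ((1 - ((Om F t p).card : ℝ) / p) *
        ((1 - 1 / (p : ℝ))⁻¹) ^ (F.filter (fun f => p ≤ t f)).card) = a t₀ := by
      refine prod_congr rfl fun p hp => ?_
      unfold Pr at hp
      rw [mem_filter, mem_Icc] at hp
      have h4 : ∀ f ∈ F, p ≤ t f := fun f hf => hp.1.2.trans (ht f hf)
      have h5 : F.filter (fun f => p ≤ t f) = F := filter_true_of_mem h4
      have h6 : Om F t p = Om F (fun _ => p) p := by
        unfold Om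
        refine filter_congr fun r _ => ?_
        constructor
        · rintro ⟨f, hf, _, hd⟩
          exact ⟨f, hf, le_rfl, hd⟩
        · rintro ⟨f, hf, _, hd⟩
          exact ⟨f, hf, h4 f hf, hd⟩
      rw [h5, h6]
      rfl
    rw [hSg, r1, hat]
    have ht0 : (0 : ℝ) < t₀ := by
      have : 0 < t₀ := by omega
      exact_mod_cast this
    have hR : 1 - (K : ℝ) ^ 2 / (t₀ : ℝ) ≤ R := by
      have h4 : (K : ℝ) ^ 2 * (1 / (t₀ : ℝ) - 1 / ((F.sup t : ℕ) : ℝ)) ≤ (K : ℝ) ^ 2 / (t₀ : ℝ) := by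
        rw [div_eq_mul_one_div ((K : ℝ) ^ 2) (t₀ : ℝ)]
        refine mul_le_mul_of_nonneg_left ?_ (by positivity)
        have : (0 : ℝ) ≤ 1 / ((F.sup t : ℕ) : ℝ) := by positivity
        linarith
      linarith
    have hac : |a t₀| ≤ |c| + δ := by
      have h5 : |a t₀| ≤ |a t₀ - c| + |c| := by
        have := abs_add_le (a t₀ - c) c
        rwa [sub_add_cancel] at this
      linarith
    have h6 : |a t₀ * R - a t₀| ≤ δ / 2 := by
      have e : a t₀ * R - a t₀ = - (a t₀ * (1 - R)) := by ring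
      rw [e, abs_neg, abs_mul, abs_of_nonneg (show (0 : ℝ) ≤ 1 - R by linarith)]
      calc |a t₀| * (1 - R) ≤ (|c| + δ) * ((K : ℝ) ^ 2 / (t₀ : ℝ)) :=
            mul_le_mul hac (by linarith) (by linarith) (by positivity)
        _ = (|c| + δ) * (K : ℝ) ^ 2 / (t₀ : ℝ) := by ring
        _ ≤ δ / 2 := h2
    calc |a t₀ * R - c| = |(a t₀ * R - a t₀) + (a t₀ - c)| := by congr 1; ring
      _ ≤ |a t₀ * R - a t₀| + |a t₀ - c| := abs_add_le _ _
      _ ≤ δ / 2 + δ / 2 := add_le_add h6 h1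
      _ = δ := by ring

end Pool.Agent.U445.HT.LIM
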